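import Pool.Agent.V11291.K49.Str

/-!
# The rank conjecture for `X_0(49)` over composita of multiquadratic fields and cyclic fields of
# degree a power of two: exact proportions and towers

`E : y² + x y = x³ - x² - 2 x - 1` is the elliptic curve `X_0(49)`. `K_1, …, K_N ⊂ ℂ` are number
fields, `K_i` of degree `2 ^ m_i`, `m_i ≥ 1`, in the `r_i`-th cyclotomic field, where `r_i ≡ 1 mod 4` is
a prime that is inert in `ℚ(√-7)`; the `K_i` are totally real or totally complex and of arbitrarily large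
degree. For a finite set `S` of natural numbers let `K_i(√S)` be the field generated over `K_i` by the
square roots of the elements of `S`. It is an abelian extension of `ℚ`, with Galois group a product of
`(ℤ/2 ^ m_i)` and a group of exponent two.

The class consists of the squarefree numbers `D`, prime to the `r_i`, all of whose prime factors are `1`
modulo `4`, such that the prime factors of `D` which split in `ℚ(√-7)` split completely in all the `K_i`,
and those which are inert in `ℚ(√-7)` have Frobenius elements of order one or two in all the `K_i`.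
The number of the prime factors is arbitrary. For a set `S` of numbers of the class let `⟨S⟩` be the set of
the squarefree numbers in the group generated by `S` and the squares. `S` is good if for all `z ∈ ⟨S⟩` a
matrix of quadratic and quartic symbols over `𝔽₂` is nonsingular; it is equivalent that the twist `E_z` has
rank zero over `K_i` and `Ш(E_z/K_i)[2] = 0`, for one (or all) `i`.

* If `S` is good then `E(K_i(√S))` is finite, the complete `L`-function of `E` over `K_i(√S)` (with all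
  the Euler factors) has an entire continuation, and it does not vanish at `s = 1`: the rank conjecture
  holds for `E` over all the fields `K_1(√S), …, K_N(√S)`, and order and rank are zero.
* If `S` is good then the proportion of the `D` of the class such that `S ∪ {D}` is good is exactly
  `c ^ #⟨S⟩`, `c = ∏_{i ≥ 0} (1 - 2^{-(2 i + 1)}) = 0.4194...`.
* Every good `S` is the first member of an infinite chain of good sets, for which the fields
  `K_i(√S)` form strictly increasing chains for all `i`.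

The proof. (1) The `L`-function over `K_i(√S)` is the product of the `L`-functions of the twists of `E` by
the characters `ω χ_z`, `ω` a character of `K_i`, `χ_z` the quadratic character of `ℚ(√z)`,
`z ∈ ⟨S⟩` (`V11291/K49`; the local computation for arbitrary abelian fields is that of helper702 and
helper884). The values at `s = 1` of these are not zero because they are not zero modulo high powers of two
(helper698 and its team). (2) The rank is the sum of the ranks of the twists `E_z` over `K_i`. (3) The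
proportion is an application of the joint proportion for general classes of primes (`V11291/GQ`).
-/

set_option autoImplicit false

open NumberField IsDedekindDomain WeierstrassCurve Filter Topology

namespace Pool.Agent.Results.MP_cd906c_nt.CompositaExactProportion

open Pool.Agent.TH841.NF.D (Sha)

/-- The elliptic curve `X_0(49) : y² + x y = x³ - x² - 2 x - 1`. -/
def E : WeierstrassCurve ℤ := ⟨1, -1, 0, -2, -1⟩

/-- For `D ≡ 1 mod 4` the quadratic twist of `E` by `D`:
the curve `y² + x y = x³ - (3 D + 1) / 4 x² - 2 D² x - D³`. -/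
def twist (D : ℕ) : WeierstrassCurve ℤ := ⟨1, -((3 * D + 1) / 4), 0, -2 * D ^ 2, -D ^ 3⟩

/-- The curve given by the equation of `W` over the ring `R`. -/
abbrev base (W : WeierstrassCurve ℤ) (R : Type) [CommRing R] : WeierstrassCurve R :=
  W.map (Int.castRingHom R)

open Classical in
/-- The rank of the group `E(F)`. -/
noncomputable def rank (F : Type) [Field F] [NumberField F] : ℕ :=
  Module.finrank ℤ (base E F).toAffine.Point

/-- The rank conjecture for `E = X_0(49)` over `F`, with order zero: `E(F)` is finite, there is an entire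
function which is equal to Mathlib's `L`-series of `E` over `F` (the complete Euler product) for
`Re s > 2`, it does not vanish at `s = 1`, and its order at `s = 1` is the rank. -/
def RankConjZero (F : Type) [Field F] [NumberField F] : Prop :=
  Finite (base E F).toAffine.Point ∧ rank F = 0 ∧
  ∃ Λ : ℂ → ℂ, Differentiable ℂ Λ ∧ (∀ s : ℂ, 2 < s.re → Λ s = (base E F).LSeries s) ∧
    Λ 1 ≠ 0 ∧ analyticOrderAt Λ 1 = rank F

/-- the group `E_D(K)` is finite and `Ш(E_D/K)` has no element of order two -/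
def RankZeroShaTwo (K : Type) [Field K] [NumberField K] (D : ℕ) : Prop :=
  Finite (base (twist D) K).toAffine.Point ∧ ∀ x : Sha (base (twist D) K), x + x = 0 → x = 0

/-- The subfield of `ℂ` generated by the `r`-th roots of unity. -/
noncomputable def cyclotomic (r : ℕ) : IntermediateField ℚ ℂ :=
  IntermediateField.adjoin ℚ {z : ℂ | z ^ r = 1}

/-- The subfield of `ℂ` generated by the square roots of the elements of `S`. -/
noncomputable def multiquadratic (S : Finset ℕ) : IntermediateField ℚ ℂ :=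
  IntermediateField.adjoin ℚ {z : ℂ | ∃ d ∈ S, z ^ 2 = (d : ℂ)}

open Classical in
/-- `1` if `m` is not a square modulo `p`, and `0` if it is -/
noncomputable def nonsq (p m : ℕ) : ZMod 2 := if IsSquare (m : ZMod p) then 0 else 1

open Classical in
/-- `1` if `-7` is not a fourth power modulo `p`, and `0` if it is -/
noncomputable def nonfourth (p : ℕ) : ZMod 2 := if ∃ y : ZMod p, y ^ 4 = -7 then 0 else 1

open Classical in
/-- The prime factors of `D` which are inert in `ℚ(√-7)` (for the `D` of the class). -/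
noncomputable def inert (D : ℕ) : Finset ℕ := D.primeFactors.filter fun p => ¬ IsSquare (-7 : ZMod p)

open Classical in
/-- The prime factors of `D` which split in `ℚ(√-7)` (for the `D` of the class). -/
noncomputable def split (D : ℕ) : Finset ℕ := D.primeFactors.filter fun p => IsSquare (-7 : ZMod p)

/-- The matrix over the field with two elements, with rows and columns indexed by `split D`: the entry
at `(i, j)` is `nonsq i j` for `i ≠ j`, and the entry at `(i, i)` is the sum of `nonfourth i` and of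
the `nonsq i l` for all the prime factors `l ≠ i` of `D`. -/
noncomputable def mat (D : ℕ) : Matrix (split D) (split D) (ZMod 2) := Matrix.of fun i j =>
  if i = j then nonfourth i + ∑ q ∈ inert D, nonsq i q + ∑ p ∈ (split D).erase i, nonsq i p
  else nonsq i j

/-- the group `⟨S⟩`: the squarefree numbers `z` such that `z ∏_{d ∈ U} d` is a square for a subset `U` of
`S` -/
def gen (S : Finset ℕ) : Set ℕ := {z | Squarefree z ∧ ∃ U ⊆ S, IsSquare (z * ∏ d ∈ U, d)}

/-- `S` is good: the matrices of all the elements of `⟨S⟩` are nonsingular -/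
def Good (S : Finset ℕ) : Prop := ∀ z ∈ gen S, (mat z).det ≠ 0

/-- `c = ∏_{i ≥ 0} (1 - 2^{-(2 i + 1)})` -/
noncomputable def cc : ℝ := ∏' i : ℕ, (1 - (1 / 2 : ℝ) ^ (2 * i + 1))

section
variable {ι : Type} (r m : ι → ℕ)

/-- The class of the numbers `D`: squarefree, prime to the `r i`, all prime factors `1` modulo `4`;
the prime factors which split in `ℚ(√-7)` are `2 ^ m i`-th powers modulo `r i` (they split completely
in `K i`), and the squares of the prime factors which are inert in `ℚ(√-7)` are `2 ^ m i`-th powers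
modulo `r i`. -/
def Adm (D : ℕ) : Prop := Squarefree D ∧ ∀ p : ℕ, p.Prime → p ∣ D → p % 4 = 1 ∧ ∀ i, p ≠ r i ∧
  (IsSquare (-7 : ZMod p) → ∃ y : ZMod (r i), y ^ 2 ^ m i = (p : ZMod (r i))) ∧
  (¬ IsSquare (-7 : ZMod p) → ∃ y : ZMod (r i), y ^ 2 ^ m i = (p : ZMod (r i)) ^ 2)

open Classical in
/-- the number of the `D ≤ X` of the class with `Q D` -/
noncomputable def count (Q : ℕ → Prop) (X : ℕ) : ℕ :=
  ((Finset.Icc 1 X).filter fun D => Adm r m D ∧ Q D).card

end

section proof

open Pool.Agent.V11291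
open Pool.Agent.Y698 (AX Inq)
open Pool.Agent.V11291.Q49 (AK BK FF Qs Ps tw)
open Pool.Agent.V11291.GQ (Cl)

lemma base_E (F : Type) [Field F] : base E F = AX F 0 := by
  have h : (Pool.Agent.Y698.twZ 1).map (Int.castRingHom F) = AX F 0 :=
    Pool.Agent.Y698.twZ_map (D := 1) (j := 0) (by norm_num) F
  have h1 : E = Pool.Agent.Y698.twZ 1 := by
    unfold E Pool.Agent.Y698.twZ
    norm_num
  show E.map (Int.castRingHom F) = _
  rw [h1, h]

lemma base_eq {D j : ℕ} (hj : D = 1 + 4 * j) (K : Type) [Field K] : base (twist D) K = AX K j :=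
  Pool.Agent.Y698.twZ_map hj K

lemma mat_eq (D : ℕ) : mat D = Pool.Agent.Y698.SG.mat (Qs D.primeFactors) (Ps D.primeFactors) := rfl

lemma cond_of {F : Type} [Field F] [NumberField F] (h1 : Finite (AX F 0).toAffine.Point)
    (h2 : ∃ Λ : ℂ → ℂ, Differentiable ℂ Λ ∧ (∀ s : ℂ, 2 < s.re → Λ s = (AX F 0).LSeries s) ∧
      Λ 1 ≠ 0) : RankConjZero F := by
  classical
  rw [← base_E] at h1
  simp only [← base_E] at h2
  obtain ⟨Λ, h3, h4, h5⟩ := h2
  have h6 : rank F = 0 := by
    unfold rank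
    exact K49.fin_rank
  refine ⟨h1, h6, Λ, h3, h4, h5, ?_⟩
  rw [h6]
  exact analyticOrderAt_eq_zero.2 (Or.inr h5)

section
variable {ι : Type} {r m : ι → ℕ}

lemma Adm.c1 {D : ℕ} (h : Adm r m D) (i : ι) : K49.C1 (r i) (m i) D :=
  ⟨h.1, fun p hp hd => ⟨(h.2 p hp hd).1, (h.2 p hp hd).2 i⟩⟩

/-- one field -/
lemma one_field {r n : ℕ} (hr : Inq r) (hn : 1 ≤ n) (K : IntermediateField ℚ ℂ) [NumberField K]
    (hK : K ≤ cyclotomic r) (hK2 : Module.finrank ℚ K = 2 ^ n) {D : ℕ} (hD : K49.C1 r n D) :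
    RankZeroShaTwo K D ↔ (mat D).det ≠ 0 := by
  classical
  have hr0 : NeZero r := ⟨hr.pr.ne_zero⟩
  have : Fact r.Prime := ⟨hr.pr⟩
  have hc1 : IsCyclotomicExtension {r} ℚ (CyclotomicField r ℚ) :=
    CyclotomicField.isCyclotomicExtension r ℚ
  obtain ⟨f⟩ := K49.alg_of K hK
  let _ : Algebra K (CyclotomicField r ℚ) := f.toAlgebra
  obtain ⟨j, hj⟩ : ∃ j, D = 1 + 4 * j := ⟨D / 4, by have := hD.m4; omega⟩
  have hQ : ∀ q ∈ Qs D.primeFactors, (Inq q ∧ q ≠ r) ∧
      ∃ y : ZMod r, y ^ 2 ^ n = (q : ZMod r) ^ 2 := by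
    intro q hq
    unfold Qs at hq
    rw [Finset.mem_filter] at hq
    have h1 := Nat.prime_of_mem_primeFactors hq.1
    have h2 := hD.2 q h1 (Nat.dvd_of_mem_primeFactors hq.1)
    exact ⟨⟨⟨h1, h2.1, hq.2⟩, h2.2.1⟩, h2.2.2.2 hq.2⟩
  have hP : ∀ p ∈ Ps D.primeFactors, Pool.Agent.Y698.SG.Spl p ∧
      ∃ y : ZMod r, y ^ 2 ^ n = (p : ZMod r) := by
    intro q hq
    unfold Ps at hq
    rw [Finset.mem_filter] at hq
    have h1 := Nat.prime_of_mem_primeFactors hq.1
    have h2 := hD.2 q h1 (Nat.dvd_of_mem_primeFactors hq.1)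
    exact ⟨⟨h1, h2.1, hq.2⟩, h2.2.2.1 hq.2⟩
  have hprod : ∏ q ∈ Qs D.primeFactors ∪ Ps D.primeFactors, q = 1 + 4 * j := by
    rw [Q49.qs_ps, Nat.prod_primeFactors_of_squarefree hD.1, hj]
  have h := Pool.Agent.Y698.SG.equiv_all (CyclotomicField r ℚ) K hK2 hn hr
    (fun q hq => (hQ q hq).1) (fun p hp => (hP p hp).1) hprod
  unfold RankZeroShaTwo
  rw [base_eq hj, ← h, mat_eq]
  exact ⟨fun h => h.2.2, fun h => ⟨fun q hq => (hQ q hq).2, fun p hp => (hP p hp).2, h⟩⟩

lemma good_insert {D : ℕ} {S : Finset ℕ} (hD : Squarefree D) (hS : ∀ d ∈ S, d ≠ 0) :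
    Good (insert D S) ↔ Good S ∧ ∀ L ∈ gen S, (mat (tw L D)).det ≠ 0 := by
  unfold Good
  have h := K49.gen_insert hD hS
  constructor
  · intro h1
    exact ⟨fun z hz => h1 z ((h z).2 (Or.inl hz)), fun L hL => h1 _ ((h _).2 (Or.inr ⟨L, hL, rfl⟩))⟩
  · rintro ⟨h1, h2⟩ z hz
    rcases (h z).1 hz with h3 | ⟨L, hL, rfl⟩
    · exact h1 z h3
    · exact h2 L hL

end

section
variable {ι : Type} [Fintype ι] {r m : ι → ℕ}

open Classical in
/-- the primes -/
noncomputable def FS (r : ι → ℕ) : Finset ℕ := Finset.univ.image r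

open Classical in
/-- the exponents -/
noncomputable def nS (r m : ι → ℕ) (ρ : ℕ) : ℕ := (Finset.univ.filter fun i => r i = ρ).sup m

lemma pow_up {ρ a b : ℕ} (hab : a ≤ b) {x : ZMod ρ} (h : ∃ y : ZMod ρ, y ^ 2 ^ b = x) :
    ∃ y : ZMod ρ, y ^ 2 ^ a = x := by
  obtain ⟨y, hy⟩ := h
  refine ⟨y ^ 2 ^ (b - a), ?_⟩
  rw [← pow_mul, ← pow_add, Nat.sub_add_cancel hab]
  exact hy

lemma all_iff (x : ∀ ρ : ℕ, ZMod ρ) :
    (∀ ρ ∈ FS r, ∃ y : ZMod ρ, y ^ 2 ^ nS r m ρ = x ρ) ↔
      ∀ i, ∃ y : ZMod (r i), y ^ 2 ^ m i = x (r i) := by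
  classical
  constructor
  · intro h i
    refine pow_up ?_ (h (r i) (Finset.mem_image_of_mem r (Finset.mem_univ i)))
    exact Finset.le_sup (f := m) (Finset.mem_filter.2 ⟨Finset.mem_univ i, rfl⟩)
  · intro h ρ hρ
    obtain ⟨i0, -, hi0⟩ := Finset.mem_image.1 hρ
    obtain ⟨i, hi, hs⟩ := Finset.exists_mem_eq_sup (Finset.univ.filter fun i => r i = ρ)
      ⟨i0, Finset.mem_filter.2 ⟨Finset.mem_univ _, hi0⟩⟩ m
    have hri := (Finset.mem_filter.1 hi).2
    subst hri
    unfold nS
    rw [hs]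
    exact h i

lemma adm_iff (hF : FF (FS r)) (D : ℕ) :
    Adm r m D ↔ Squarefree D ∧ Cl (AK (FS r) (nS r m)) (BK (FS r) (nS r m)) D.primeFactors := by
  classical
  refine and_congr_right fun hD => ?_
  have kA : ∀ p : ℕ, (∀ ρ ∈ FS r, ∃ y : ZMod ρ, y ^ 2 ^ nS r m ρ = (p : ZMod ρ)) ↔
      ∀ i, ∃ y : ZMod (r i), y ^ 2 ^ m i = (p : ZMod (r i)) := fun p => all_iff fun ρ => (p : ZMod ρ)
  have kB : ∀ p : ℕ, (∀ ρ ∈ FS r, ∃ y : ZMod ρ, y ^ 2 ^ nS r m ρ = (p : ZMod ρ) ^ 2) ↔
      ∀ i, ∃ y : ZMod (r i), y ^ 2 ^ m i = (p : ZMod (r i)) ^ 2 :=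
    fun p => all_iff fun ρ => (p : ZMod ρ) ^ 2
  have kF : ∀ p : ℕ, p ∈ FS r ↔ ∃ i, r i = p := by
    intro p
    unfold FS
    rw [Finset.mem_image]
    exact ⟨fun ⟨i, _, h⟩ => ⟨i, h⟩, fun ⟨i, h⟩ => ⟨i, Finset.mem_univ i, h⟩⟩
  constructor
  · intro h p hp
    have h1 := Nat.prime_of_mem_primeFactors hp
    obtain ⟨h2, h3⟩ := h p h1 (Nat.dvd_of_mem_primeFactors hp)
    by_cases h7 : IsSquare (-7 : ZMod p)
    · exact Or.inl ⟨h1, h2, h7, (kA p).2 fun i => (h3 i).2.1 h7⟩
    · refine Or.inr ⟨h1, h2, h7, fun hpF => ?_, (kB p).2 fun i => (h3 i).2.2 h7⟩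
      obtain ⟨i, hi⟩ := (kF p).1 hpF
      exact (h3 i).1 hi.symm
  · intro h p hp hd
    rcases h p (Nat.mem_primeFactors.2 ⟨hp, hd, hD.ne_zero⟩) with h1 | h1
    · refine ⟨h1.2.1, fun i => ⟨?_, fun _ => (kA p).1 h1.2.2.2 i, fun h7 => absurd h1.2.2.1 h7⟩⟩
      rintro rfl
      exact (hF _ ((kF _).2 ⟨i, rfl⟩)).2.2 h1.2.2.1
    · refine ⟨h1.2.1, fun i => ⟨?_, fun h7 => absurd h7 h1.2.2.1, fun _ => (kB p).1 h1.2.2.2.2 i⟩⟩
      rintro rfl
      exact h1.2.2.2.1 ((kF _).2 ⟨i, rfl⟩)

omit [Fintype ι] in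
lemma count_eq (Q R : ℕ → Prop) [DecidablePred R] (h : ∀ D, R D ↔ Adm r m D ∧ Q D) (X : ℕ) :
    ((Finset.Icc 1 X).filter R).card = count r m Q X := by
  classical
  unfold count
  congr 1
  ext D
  rw [Finset.mem_filter, Finset.mem_filter, h]

lemma ff_of (hr : ∀ i, (r i).Prime ∧ r i % 4 = 1 ∧ ¬ IsSquare (-7 : ZMod (r i))) : FF (FS r) := by
  classical
  intro ρ hρ
  obtain ⟨i, -, rfl⟩ := Finset.mem_image.1 hρ
  exact hr i

/-- the proportion -/
lemma prop (hr : ∀ i, (r i).Prime ∧ r i % 4 = 1 ∧ ¬ IsSquare (-7 : ZMod (r i)))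
    {S : Finset ℕ} (hS : ∀ d ∈ S, Adm r m d) (hG : Good S) :
    Tendsto (fun X : ℕ => (count r m (fun D => Good (insert D S)) X : ℝ) /
        (count r m (fun _ => True) X : ℝ)) atTop (𝓝 (cc ^ (gen S).ncard)) := by
  classical
  have hF := ff_of hr
  have hS0 : ∀ d ∈ S, d ≠ 0 := fun d hd => (hS d hd).1.ne_zero
  set T : Finset ℕ := (K49.gen_finite hS0).toFinset with hT
  have hTm : ∀ L, L ∈ T ↔ L ∈ gen S := fun L => by
    rw [hT, Set.Finite.mem_toFinset]
    exact Iff.rfl
  have hTc : T.card = (gen S).ncard :=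
    (Set.ncard_eq_toFinset_card _ (K49.gen_finite hS0)).symm
  have hTA : ∀ L ∈ T, Adm r m L := by
    intro L hL
    rw [hTm] at hL
    refine ⟨hL.1, fun p hp hd => ?_⟩
    obtain ⟨d, hd, h⟩ := K49.gen_dvd hL hp hd
    exact (hS d hd).2 p hp h
  obtain ⟨PP, hPP⟩ : ∃ PP : ℕ → Prop, ∀ D, PP D ↔ (mat D).det ≠ 0 := ⟨_, fun _ => Iff.rfl⟩
  have h := Pool.Agent.V11291.Q49.den_K hF T (fun L hL => (adm_iff hF L).1 (hTA L hL))
    PP fun D h2 h3 => by
      rw [hPP, Pool.Agent.V11291.Q49.gd_matK h3, mat_eq]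
      exact Iff.rfl
  rw [← hTc]
  refine h.congr fun X => ?_
  rw [count_eq (fun D => Good (insert D S)) _ (fun D => by
      rw [adm_iff hF]
      refine and_congr_right fun h4 => ?_
      rw [good_insert h4.1 hS0]
      simp only [hTm, hPP]
      exact ⟨fun h => ⟨hG, h⟩, fun h => h.2⟩) X,
    count_eq (fun _ => True) _ (fun D => by rw [adm_iff hF]; tauto) X]

/-- the size of the class -/
lemma size (hr : ∀ i, (r i).Prime ∧ r i % 4 = 1 ∧ ¬ IsSquare (-7 : ZMod (r i))) :
    ∃ (b : ℝ) (X₀ : ℕ), 0 < b ∧ ∀ X : ℕ, X₀ ≤ X →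
      b * X * (Real.log X) ^ (-1 + 1 / (2 * ∏ i, 2 ^ m i) : ℝ) ≤
        (count r m (fun _ => True) X : ℝ) := by
  classical
  have hF := ff_of hr
  obtain ⟨b, X₀, hb, h⟩ := Pool.Agent.V11291.Q49.low_K (n := nS r m) hF
  refine ⟨b, max X₀ 3, hb, fun X hX => ?_⟩
  have h2 := h X ((le_max_left _ _).trans hX)
  have hX3 : 3 ≤ X := (le_max_right _ _).trans hX
  rw [count_eq (fun _ => True) _ (fun D => by rw [adm_iff hF]; tauto) X] at h2
  refine le_trans ?_ h2
  have hlog1 : 1 ≤ Real.log X := by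
    rw [Real.le_log_iff_exp_le (by exact_mod_cast (by omega : 0 < X))]
    have h3 := Real.exp_one_lt_d9
    have h4 : (3 : ℝ) ≤ X := by exact_mod_cast hX3
    linarith
  refine mul_le_mul_of_nonneg_left (Real.rpow_le_rpow_of_exponent_le hlog1 ?_) (by positivity)
  have h3 : ∏ ρ ∈ FS r, 2 ^ nS r m ρ ≤ ∏ i, 2 ^ m i := by
    have h4 : ∏ i, 2 ^ m i = ∏ ρ ∈ FS r, ∏ i ∈ Finset.univ.filter (fun i => r i = ρ), 2 ^ m i :=
      (Finset.prod_fiberwise_of_maps_to
        (fun i _ => Finset.mem_image_of_mem r (Finset.mem_univ i)) _).symm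
    rw [h4]
    refine Finset.prod_le_prod' fun ρ _ => ?_
    rw [Finset.prod_pow_eq_pow_sum]
    refine Nat.pow_le_pow_right (by norm_num) ?_
    unfold nS
    refine Finset.sup_le fun i hi => ?_
    exact Finset.single_le_sum (f := m) (fun _ _ => Nat.zero_le _) hi
  have h4 : (∏ ρ ∈ FS r, (2 : ℝ) ^ nS r m ρ) ≤ ∏ i, (2 : ℝ) ^ m i := by exact_mod_cast h3
  have h5 : (0 : ℝ) < ∏ ρ ∈ FS r, (2 : ℝ) ^ nS r m ρ := Finset.prod_pos fun _ _ => by positivity
  have h6 : 1 / (2 * ∏ i, (2 : ℝ) ^ m i) ≤ 1 / (2 * ∏ ρ ∈ FS r, (2 : ℝ) ^ nS r m ρ) :=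
    one_div_le_one_div_of_le (by positivity) (by linarith)
  linarith

/-- the class is infinite -/
lemma count_top (hr : ∀ i, (r i).Prime ∧ r i % 4 = 1 ∧ ¬ IsSquare (-7 : ZMod (r i))) :
    Tendsto (fun X : ℕ => (count r m (fun _ => True) X : ℝ)) atTop atTop := by
  obtain ⟨b, X₀, hb, h⟩ := size (m := m) hr
  have h1 : Tendsto (fun X : ℕ => b / 2 * (X : ℝ) ^ (1 / 2 : ℝ)) atTop atTop := by
    refine Tendsto.const_mul_atTop (by positivity) ?_
    exact (tendsto_rpow_atTop (by norm_num)).comp tendsto_natCast_atTop_atTop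
  refine tendsto_atTop_mono' _ ?_ h1
  filter_upwards [eventually_ge_atTop (max X₀ 3)] with X hX
  have h2 := h X ((le_max_left _ _).trans hX)
  have hX3 : 3 ≤ X := (le_max_right _ _).trans hX
  refine le_trans ?_ h2
  have hX0 : (0 : ℝ) < X := by exact_mod_cast (by omega : 0 < X)
  have hlog1 : 1 ≤ Real.log X := by
    rw [Real.le_log_iff_exp_le hX0]
    have h3 := Real.exp_one_lt_d9
    have h4 : (3 : ℝ) ≤ X := by exact_mod_cast hX3
    linarith
  have h3 : Real.log X ≤ (X : ℝ) ^ (1 / 2 : ℝ) / (1 / 2) := Real.log_le_rpow_div hX0.le (by norm_num)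
  have h4 : (Real.log X) ^ (-1 : ℝ) ≤ (Real.log X) ^ (-1 + 1 / (2 * ∏ i, 2 ^ m i) : ℝ) := by
    apply Real.rpow_le_rpow_of_exponent_le hlog1
    have : (0 : ℝ) ≤ 1 / (2 * ∏ i, (2 : ℝ) ^ m i) := by positivity
    linarith
  have h5 : (X : ℝ) ^ (1 / 2 : ℝ) * (X : ℝ) ^ (1 / 2 : ℝ) = X := by
    rw [← Real.rpow_add hX0]
    norm_num
  have h6 : (0 : ℝ) < (X : ℝ) ^ (1 / 2 : ℝ) := Real.rpow_pos_of_pos hX0 _
  calc b / 2 * (X : ℝ) ^ (1 / 2 : ℝ) ≤ b * X * (Real.log X) ^ (-1 : ℝ) := by
        rw [Real.rpow_neg_one, ← div_eq_mul_inv, le_div_iff₀ (by linarith)]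
        nlinarith [mul_pos hb h6]
    _ ≤ _ := mul_le_mul_of_nonneg_left h4 (by positivity)

/-- large good extensions -/
lemma exists_large (hr : ∀ i, (r i).Prime ∧ r i % 4 = 1 ∧ ¬ IsSquare (-7 : ZMod (r i)))
    {S : Finset ℕ} (hS : ∀ d ∈ S, Adm r m d) (hG : Good S) (B : ℕ) :
    ∃ D, B < D ∧ Adm r m D ∧ Good (insert D S) := by
  classical
  by_contra hcon
  push Not at hcon
  have h1 := prop hr hS hG
  have h2 : ∀ X : ℕ, (count r m (fun D => Good (insert D S)) X : ℝ) ≤ (B : ℝ) := by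
    intro X
    have h3 : count r m (fun D => Good (insert D S)) X ≤ (Finset.Icc 1 B).card := by
      unfold count
      refine Finset.card_le_card fun D hD => ?_
      rw [Finset.mem_filter] at hD
      rw [Finset.mem_Icc]
      refine ⟨(Finset.mem_Icc.1 hD.1).1, ?_⟩
      by_contra h4
      exact hcon D (by omega) hD.2.1 hD.2.2
    rw [Nat.card_Icc, Nat.add_sub_cancel] at h3
    exact_mod_cast h3
  have h3 : Tendsto (fun X : ℕ => (B : ℝ) / (count r m (fun _ => True) X : ℝ)) atTop (𝓝 0) :=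
    (count_top hr).const_div_atTop _
  have h4 : cc ^ (gen S).ncard ≤ 0 := by
    refine le_of_tendsto_of_tendsto h1 h3 (Eventually.of_forall fun X => ?_)
    exact div_le_div_of_nonneg_right (h2 X) (Nat.cast_nonneg _)
  have h5 : 0 < cc := by
    have := Pool.Agent.Y948.CQ.t_C2.2.2.2.1
    have h6 : (0.4194 : ℝ) < cc := this
    linarith
  exact absurd (pow_pos h5 _) (not_lt.2 h4)

end

end proof

/-- **Main theorem.** Let `K i ⊂ ℂ` be number fields, `i` in a finite set, of degree `2 ^ m i`, `m i ≥ 1`,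
contained in the `r i`-th cyclotomic field, where `r i ≡ 1 mod 4` is a prime inert in `ℚ(√-7)`.
(1) If `S` is a good set of numbers of the class, then the rank conjecture holds for `E = X_0(49)` over
`K i (√S)` for all `i`, with order and rank zero.
(2) For all `D` of the class and all `i`: `E_D(K i)` is finite and `Ш(E_D/K i)[2] = 0` if and only if the
matrix of `D` is nonsingular.
(3) If `S` is a good set of numbers of the class, the proportion of the `D` of the class such that
`S ∪ {D}` is good is exactly `c ^ #⟨S⟩`, `c = ∏_{i ≥ 0} (1 - 2^{-(2 i + 1)})`,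
`0.4194 < c < 0.4195`. The empty set is good.
(4) Every good set `S` of numbers of the class is the first one of an infinite sequence of good sets
`T k`, `T (k + 1) = T k ∪ {D}` with `D` in the class, such that `K i (√(T k))` is strictly contained in
`K i (√(T (k + 1)))` for all `i` and `k`.
(5) The number of the `D ≤ X` of the class is at least a positive constant times
`X (log X) ^ (κ - 1)`, `κ = 1 / (2 ∏ 2 ^ m i)`. -/
theorem result {ι : Type} [Fintype ι] (r m : ι → ℕ)
    (hr : ∀ i, (r i).Prime ∧ r i % 4 = 1 ∧ ¬ IsSquare (-7 : ZMod (r i))) (hm : ∀ i, 1 ≤ m i)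
    (K : ι → IntermediateField ℚ ℂ) [∀ i, NumberField (K i)]
    (hK : ∀ i, K i ≤ cyclotomic (r i) ∧ Module.finrank ℚ (K i) = 2 ^ m i) :
    (∀ S : Finset ℕ, (∀ d ∈ S, Adm r m d) → Good S → ∀ (i : ι) (F : IntermediateField ℚ ℂ)
      [NumberField F], F = multiquadratic S ⊔ K i → RankConjZero F) ∧
    (∀ D : ℕ, Adm r m D → ∀ i, (RankZeroShaTwo (K i) D ↔ (mat D).det ≠ 0)) ∧
    (∀ S : Finset ℕ, (∀ d ∈ S, Adm r m d) → Good S →
      Tendsto (fun X : ℕ => (count r m (fun D => Good (insert D S)) X : ℝ) /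
        (count r m (fun _ => True) X : ℝ)) atTop (𝓝 (cc ^ (gen S).ncard))) ∧
    (0.4194 < cc ∧ cc < 0.4195) ∧ Good ∅ ∧
    (∀ S : Finset ℕ, (∀ d ∈ S, Adm r m d) → Good S → ∃ T : ℕ → Finset ℕ, T 0 = S ∧
      ∀ k, (∀ d ∈ T k, Adm r m d) ∧ Good (T k) ∧ (∃ D, T (k + 1) = insert D (T k)) ∧
        ∀ i, multiquadratic (T k) ⊔ K i < multiquadratic (T (k + 1)) ⊔ K i) ∧
    ∃ (b : ℝ) (X₀ : ℕ), 0 < b ∧ ∀ X : ℕ, X₀ ≤ X →
      b * X * (Real.log X) ^ (-1 + 1 / (2 * ∏ i, 2 ^ m i) : ℝ) ≤
        (count r m (fun _ => True) X : ℝ) := by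
  classical
  have hin : ∀ i, Pool.Agent.Y698.Inq (r i) := fun i => ⟨(hr i).1, (hr i).2.1, (hr i).2.2⟩
  refine ⟨fun S hS hG i F _ hF => ?_, fun D hD i => ?_, fun S hS hG => prop hr hS hG,
    Pool.Agent.Y948.CQ.t_C2.2.2.2, ?_, fun S hS hG => ?_, size hr⟩
  · obtain ⟨h1, h2⟩ := Pool.Agent.V11291.K49.comp (hin i) (hm i) (K i) (hK i).1 (hK i).2 S
      (fun d hd => (hS d hd).c1 i) (fun z hz => hG z hz) F hF
    exact cond_of h1 h2
  · exact one_field (hin i) (hm i) (K i) (hK i).1 (hK i).2 (hD.c1 i)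
  · intro z hz
    have hz1 : z = 1 := by
      have : z ∈ Pool.Agent.V11291.K49.gen ∅ := hz
      rw [Pool.Agent.V11291.K49.gen_empty] at this
      exact this
    subst hz1
    have : IsEmpty (split 1) := by
      constructor
      rintro ⟨p, hp⟩
      unfold split at hp
      rw [Nat.primeFactors_one, Finset.filter_empty] at hp
      exact absurd hp (Finset.notMem_empty p)
    rw [Matrix.det_isEmpty]
    exact one_ne_zero
  · have step : ∀ U : {U : Finset ℕ // (∀ d ∈ U, Adm r m d) ∧ Good U}, ∃ D : ℕ,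
        ∏ d ∈ U.1, d < D ∧ Adm r m D ∧ Good (insert D U.1) := fun U =>
      exists_large hr U.2.1 U.2.2 _
    choose f hf using step
    let g : {U : Finset ℕ // (∀ d ∈ U, Adm r m d) ∧ Good U} →
        {U : Finset ℕ // (∀ d ∈ U, Adm r m d) ∧ Good U} := fun U =>
      ⟨insert (f U) U.1, fun d hd => by
        rcases Finset.mem_insert.1 hd with rfl | h
        · exact (hf U).2.1
        · exact U.2.1 d h, (hf U).2.2⟩
    let T : ℕ → {U : Finset ℕ // (∀ d ∈ U, Adm r m d) ∧ Good U} := fun k => g^[k] ⟨S, hS, hG⟩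
    refine ⟨fun k => (T k).1, rfl, fun k => ⟨(T k).2.1, (T k).2.2, ?_, fun i => ?_⟩⟩
    · exact ⟨f (T k), by
        show (T (k + 1)).1 = _
        show (g^[k + 1] _).1 = _
        rw [Function.iterate_succ_apply']⟩
    · have hT1 : (T (k + 1)).1 = insert (f (T k)) (T k).1 := by
        show (g^[k + 1] _).1 = _
        rw [Function.iterate_succ_apply']
      beta_reduce
      rw [hT1]
      obtain ⟨h1, h2, h3⟩ := hf (T k)
      have hU := (T k).2.1
      set U := (T k).1 with hUdef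
      set D := f (T k) with hDdef
      -- a prime factor of `D` which does not divide the elements of `U`
      obtain ⟨p, hp, hpD, hpU⟩ : ∃ p : ℕ, p.Prime ∧ p ∣ D ∧ ∀ d ∈ U, ¬ p ∣ d := by
        by_contra hcon
        push Not at hcon
        have h4 : D ∣ ∏ d ∈ U, d := by
          rw [← Nat.prod_primeFactors_of_squarefree h2.1]
          refine Finset.prod_primes_dvd _
            (fun p hp => (Nat.prime_of_mem_primeFactors hp).prime) fun p hp => ?_
          obtain ⟨d, hd, h5⟩ := hcon p (Nat.prime_of_mem_primeFactors hp)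
            (Nat.dvd_of_mem_primeFactors hp)
          exact h5.trans (Finset.dvd_prod_of_mem _ hd)
        have h5 : ∏ d ∈ U, d ≠ 0 := Finset.prod_ne_zero_iff.2 fun d hd => (hU d hd).1.ne_zero
        have := Nat.le_of_dvd (Nat.pos_of_ne_zero h5) h4
        omega
      obtain ⟨z, hz⟩ : ∃ z : ℂ, z ^ 2 = (D : ℂ) := IsAlgClosed.exists_pow_nat_eq _ (by norm_num)
      have hins : multiquadratic (insert D U) = multiquadratic U ⊔ IntermediateField.adjoin ℚ {z} :=
        Pool.Agent.V11291.K49.mqN_insert U D hz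
      have hNF : NumberField (multiquadratic U ⊔ K i : IntermediateField ℚ ℂ) :=
        Pool.Agent.V11291.K49.nf_mqN U (K i)
      have hzn : z ∉ (multiquadratic U ⊔ K i : IntermediateField ℚ ℂ) :=
        Pool.Agent.V11291.K49.not_mem (hr i).1 (K i) (hK i).1 U (fun d hd => (hU d hd).c1 i)
          (multiquadratic U ⊔ K i) rfl h2.1 hp hpD ((h2.2 p hp hpD).2 i).1 hpU hz
      refine lt_of_le_of_ne ?_ fun h => hzn ?_
      · rw [hins]
        exact sup_le_sup_right le_sup_left _
      · rw [h, hins]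
        exact (le_sup_left : _ ≤ (multiquadratic U ⊔ IntermediateField.adjoin ℚ {z}) ⊔ K i)
          ((le_sup_right : _ ≤ multiquadratic U ⊔ IntermediateField.adjoin ℚ {z})
            (IntermediateField.mem_adjoin_simple_self ℚ z))

end Pool.Agent.Results.MP_cd906c_nt.CompositaExactProportion
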