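import Pool.Agent.V11333.Cone8

/-!
# The analytic rank of elliptic curves over number fields and lower bounds of Euler products

Let `E : y² = x³ + a x + b` be an elliptic curve over a number field `K`, `a, b ∈ 𝓞_K`, and let
`L(E, s) = ∏_v (1 - a_v q_v^{-s} + q_v^{1 - 2s})⁻¹` be its `L`-function, without the Euler factors at the
primes `v` dividing `6 (4 a³ + 27 b²)` (they have neither zeros nor poles for `Re s > 1/2`). The only
hypothesis is that `L(E, s)` has a continuation `F` along the REAL axis to `s ≥ 1` (analytic at the real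
points; for example an entire continuation, as in the problem; zeros are allowed everywhere). Let

`S_ρ(Y) = ∑_{v, k ≥ 1} w_ρ(k log q_v / log Y) t_k(v) / (k q_v^k)`,
`w_ρ(u) = (1/2πi) ∫ exp(z - u z^{1/ρ}) dz/z`, `ρ > 1`,

where `t_k(v)` is the trace of the `k`-th power of Frobenius and `q_v^k ≤ exp ((log Y)^{ρ'})` (any
`ρ' > ρ`): the smoothed logarithm of the Euler product at `s = 1`. It is shown that for all `ρ₀ ≥ 1` and
all REAL `t`:

`S_ρ(Y) + t log log Y` is bounded BELOW for `Y → ∞`, for all `ρ > ρ₀`, if and only if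
`ord_{s=1} L(E, s) ≤ t` and `L(E, s)` has a holomorphic continuation without zeros to the sector
`|arg (s - 1)| < π/(2ρ₀)`

(for `ρ₀ = 1` the half plane `Re s > 1`). So one-sided bounds give upper bounds for the analytic rank and
the Riemann hypothesis to the right of the central line (with the continuation to the half plane), and
the exponent has a gap: if the lower bounds hold for some `t < r + 1`, they hold for `t = r`. In
particular the rank conjecture for `E/K` together with the absence of zeros is equivalent to the statement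
that the lower bounds hold exactly for the `t ≥ rank E(K)`.

The two-sided law for the order (assuming a continuation to the half plane) is
MP_cd906c_nt.SectorialRankLaw; here one-sided bounds and the continuation along the real axis
suffice, and the continuation to the half plane is a conclusion.
-/

set_option autoImplicit false

namespace Pool.Agent.Results.MP_cd906c_nt.OneSidedRankBound

open Filter Topology Set NumberField IsDedekindDomain

variable {K : Type} [Field K] [NumberField K]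

/-- The norm `q_v`. -/
noncomputable def nrm (v : HeightOneSpectrum (𝓞 K)) : ℕ := Ideal.absNorm v.asIdeal

/-- `v` does not divide `6 (4 a³ + 27 b²)`. -/
def Good (a b : 𝓞 K) (v : HeightOneSpectrum (𝓞 K)) : Prop :=
  6 * (4 * a ^ 3 + 27 * b ^ 2) ∉ v.asIdeal

/-- The number of affine points of `y² = x³ + a x + b` modulo `v`. -/
noncomputable def pts (a b : 𝓞 K) (v : HeightOneSpectrum (𝓞 K)) : ℕ :=
  Nat.card {P : (𝓞 K ⧸ v.asIdeal) × (𝓞 K ⧸ v.asIdeal) //
    P.2 ^ 2 = P.1 ^ 3 + Ideal.Quotient.mk v.asIdeal a * P.1 + Ideal.Quotient.mk v.asIdeal b}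

/-- The trace `t_k(v)` of the `k`-th power of Frobenius: `t_0 = 2`, `t_1 = a_v = q_v - N_v` and
`t_{k+2} = a_v t_{k+1} - q_v t_k`. -/
noncomputable def trace (a b : 𝓞 K) (v : HeightOneSpectrum (𝓞 K)) : ℕ → ℝ
  | 0 => 2
  | 1 => (nrm v : ℝ) - pts a b v
  | (k + 2) => ((nrm v : ℝ) - pts a b v) * trace a b v (k + 1) - nrm v * trace a b v k

/-- The Euler factor `(1 - a_v q_v^{-s} + q_v^{1 - 2s})⁻¹`, `a_v = q_v - N_v`. -/
noncomputable def factor (a b : 𝓞 K) (v : HeightOneSpectrum (𝓞 K)) (s : ℂ) : ℂ :=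
  (1 - ((nrm v : ℂ) - pts a b v) * (nrm v : ℂ) ^ (-s) + (nrm v : ℂ) ^ (1 - 2 * s))⁻¹

/-- The open sector `|arg (s - 1)| < π/(2ρ)` with vertex `1`. -/
def Sector (ρ : ℝ) : Set ℂ := {s | s ≠ 1 ∧ |(s - 1).arg| < Real.pi / (2 * ρ)}

/-- `F` is a continuation of `L(E, s)` along the real axis: analytic at all real `x ≥ 1`, and equal to
the Euler product for real `x > 3/2`. -/
def IsRealContinuation (a b : 𝓞 K) (F : ℂ → ℂ) : Prop :=
  (∀ x : ℝ, 1 ≤ x → AnalyticAt ℂ F x) ∧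
    ∀ x : ℝ, 3 / 2 < x → HasProd (fun v : {v // Good a b v} => factor a b v.1 x) (F x)

/-- `L(E, s)` has a holomorphic continuation `G` without zeros to the union of the sector
`|arg (s - 1)| < π/(2ρ₀)` and the half plane `Re s > 3/2`. -/
def ZeroFree (a b : 𝓞 K) (ρ₀ : ℝ) : Prop :=
  ∃ G : ℂ → ℂ, (∀ s : ℂ, s ∈ Sector ρ₀ ∨ 3 / 2 < s.re → DifferentiableAt ℂ G s ∧ G s ≠ 0) ∧
    ∀ s : ℂ, 3 / 2 < s.re → HasProd (fun v : {v // Good a b v} => factor a b v.1 s) (G s)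

/-- The weight `w_ρ(u) = (1/2πi) ∫_{Re z = 1} exp(z - u z^{1/ρ}) dz/z`. -/
noncomputable def weight (ρ u : ℝ) : ℝ :=
  (2 * Real.pi)⁻¹ * ∫ t : ℝ, (Complex.exp ((1 + t * Complex.I) -
    u * (1 + t * Complex.I) ^ ((ρ⁻¹ : ℝ) : ℂ)) / (1 + t * Complex.I)).re

/-- `S_ρ(Y)`: the sum of `w_ρ(k log q_v / log Y) t_k(v) / (k q_v^k)` over the good primes `v` and the
`k ≥ 1` (here `k = p.2 + 1`) with `q_v^k ≤ exp ((log Y)^{ρ'})`. -/
noncomputable def mean (a b : 𝓞 K) (ρ ρ' Y : ℝ) : ℝ :=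
  ∑ᶠ (p : {v // Good a b v} × ℕ) (_ : (nrm p.1.1 : ℝ) ^ (p.2 + 1) ≤ Real.exp (Real.log Y ^ ρ')),
    weight ρ (((p.2 : ℝ) + 1) * Real.log (nrm p.1.1) / Real.log Y) *
      (trace a b p.1.1 (p.2 + 1) / (((p.2 : ℝ) + 1) * (nrm p.1.1 : ℝ) ^ (p.2 + 1)))

/-- `S_ρ(Y) + t log log Y` is bounded below for `Y → ∞`, for all `ρ' > ρ > ρ₀`. -/
def Lower (a b : 𝓞 K) (ρ₀ t : ℝ) : Prop :=
  ∀ ρ ρ' : ℝ, ρ₀ < ρ → ρ < ρ' → ∃ C : ℝ, ∀ᶠ Y : ℝ in atTop,
    -C ≤ mean a b ρ ρ' Y + t * Real.log (Real.log Y)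

open Classical in
/-- The rank of the group `E(K)`. -/
noncomputable def rank (a b : 𝓞 K) : ℕ :=
  Module.finrank ℤ (⟨0, 0, 0, (a : K), (b : K)⟩ : WeierstrassCurve K).toAffine.Point

open Pool.Agent.TH942.ES
open Pool.Agent.V11333
open Pool.Agent.H921R2.TatePole (nm)

/-- the set of the good primes -/
def gs (a b : 𝓞 K) : Set (HeightOneSpectrum (𝓞 K)) := {v | Good a b v}

/-- the eigenvalues -/
noncomputable def al (a b : 𝓞 K) (v : gs a b) (j : Fin 2) : ℂ :=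
  rt (trV a b v.1) j * ((√(nm v.1 : ℝ) : ℝ) : ℂ)

theorem good_tr {a b : 𝓞 K} (v : gs a b) : |trV a b v.1| ≤ 1 := trV_abs (show GoodV a b v.1 from v.2)

theorem al_norm {a b : 𝓞 K} (v : gs a b) (j : Fin 2) : ‖al a b v j‖ ≤ (nm v.1 : ℝ) ^ (1 / 2 : ℝ) := by
  unfold al
  rw [norm_mul, Complex.norm_real, Real.norm_eq_abs, abs_of_nonneg (Real.sqrt_nonneg _),
    ← Real.sqrt_eq_rpow]
  exact mul_le_of_le_one_left (Real.sqrt_nonneg _) (rt_norm (good_tr v) j)

theorem al_sq {a b : 𝓞 K} (v : gs a b) : ((√(nm v.1 : ℝ) : ℝ) : ℂ) ^ 2 = nm v.1 := by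
  rw [← Complex.ofReal_pow, Real.sq_sqrt (Nat.cast_nonneg _), Complex.ofReal_natCast]

theorem al_poly {a b : 𝓞 K} (v : gs a b) (z : ℂ) :
    (1 - al a b v 0 * z) * (1 - al a b v 1 * z) =
      1 - ((nrm v.1 : ℂ) - pts a b v.1) * z + nrm v.1 * z ^ 2 := by
  have h1 := rt_prod (good_tr v) (((√(nm v.1 : ℝ) : ℝ) : ℂ) * z)
  have h2 := sqrt_nm_pos v.1
  have h3 : ((√(nm v.1 : ℝ) : ℝ) : ℂ) ≠ 0 := by exact_mod_cast h2.ne'
  have h4 : (trV a b v.1 : ℂ) = ((nm v.1 : ℂ) - ptsV a b v.1) / (2 * ((√(nm v.1 : ℝ) : ℝ) : ℂ)) := by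
    unfold trV
    push_cast
    rfl
  have h5 : (nrm v.1 : ℂ) = nm v.1 := rfl
  have h6 : (pts a b v.1 : ℂ) = ptsV a b v.1 := rfl
  unfold al
  rw [h5, h6]
  calc _ = (1 - rt (trV a b v.1) 0 * (((√(nm v.1 : ℝ) : ℝ) : ℂ) * z)) *
        (1 - rt (trV a b v.1) 1 * (((√(nm v.1 : ℝ) : ℝ) : ℂ) * z)) := by ring
    _ = 1 - 2 * trV a b v.1 * (((√(nm v.1 : ℝ) : ℝ) : ℂ) * z) +
        (((√(nm v.1 : ℝ) : ℝ) : ℂ) * z) ^ 2 := h1
    _ = _ := by
      rw [mul_pow, al_sq, h4]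
      field_simp

theorem al_sum {a b : 𝓞 K} (v : gs a b) :
    al a b v 0 + al a b v 1 = (nrm v.1 : ℂ) - pts a b v.1 := by
  have h1 := al_poly v 1
  have h2 := al_poly v (-1)
  linear_combination (h2 - h1) / 2

theorem al_mul {a b : 𝓞 K} (v : gs a b) : al a b v 0 * al a b v 1 = nrm v.1 := by
  have h1 := al_poly v 1
  have h2 := al_poly v (-1)
  linear_combination (h2 + h1) / 2

theorem al_trace {a b : 𝓞 K} (v : gs a b) (k : ℕ) :
    ∑ j, al a b v j ^ k = ((trace a b v.1 k : ℝ) : ℂ) := by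
  have h1 := al_sum v
  have h2 := al_mul v
  rw [Fin.sum_univ_two]
  induction k using Nat.twoStepInduction with
  | zero =>
    rw [trace]
    norm_num
  | one =>
    rw [trace, pow_one, pow_one, h1]
    push_cast
    rfl
  | more k ih1 ih2 =>
    rw [trace]
    push_cast
    rw [← ih1, ← ih2, ← h1, ← h2]
    ring

theorem al_pure (a b : 𝓞 K) : PR.Pure (1 / 2) (al a b) :=
  ⟨al_norm, fun v k => by rw [al_trace, Complex.ofReal_im]⟩

theorem factor_eq {a b : 𝓞 K} (v : gs a b) (s : ℂ) : PR.factor (al a b) v s = factor a b v.1 s := by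
  have h0 : (nrm v.1 : ℂ) ≠ 0 := by
    have h2 := PR.nrm_two v.1
    have h3 : (0 : ℝ) < nm v.1 := by linarith
    have h4 : (nrm v.1 : ℂ) = ((nm v.1 : ℝ) : ℂ) := by
      rw [Complex.ofReal_natCast]
      rfl
    rw [h4]
    exact_mod_cast h3.ne'
  unfold PR.factor factor
  have h1 : (nm v.1 : ℂ) = nrm v.1 := rfl
  rw [Fin.prod_univ_two, ← mul_inv, h1, al_poly]
  congr 2
  rw [← Complex.cpow_nat_mul]
  calc (nrm v.1 : ℂ) * (nrm v.1 : ℂ) ^ (((2 : ℕ) : ℂ) * -s) =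
        (nrm v.1 : ℂ) ^ (1 : ℂ) * (nrm v.1 : ℂ) ^ (((2 : ℕ) : ℂ) * -s) := by rw [Complex.cpow_one]
    _ = _ := by
      rw [← Complex.cpow_add _ _ h0]
      congr 1
      push_cast
      ring

theorem sector_eq (ρ : ℝ) : CP.Sector 1 ρ = Sector ρ := by
  unfold CP.Sector Sector
  rw [Complex.ofReal_one]

theorem mean_eq (a b : 𝓞 K) (ρ ρ' Y : ℝ) : CP.mean 1 (al a b) ρ ρ' Y = mean a b ρ ρ' Y := by
  unfold CP.mean mean
  refine finsum_congr fun p => finsum_congr fun _ => ?_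
  rw [al_trace, Complex.ofReal_re, Real.rpow_one]
  rfl

theorem real_iff (a b : 𝓞 K) (F : ℂ → ℂ) :
    CP.IsRealContinuation 1 (3 / 2) (al a b) F ↔ IsRealContinuation a b F := by
  unfold CP.IsRealContinuation IsRealContinuation
  simp only [factor_eq]
  rfl

theorem zero_iff (a b : 𝓞 K) (ρ₀ : ℝ) :
    CP.ZeroFree 1 (3 / 2) (al a b) ρ₀ ↔ ZeroFree a b ρ₀ := by
  unfold CP.ZeroFree ZeroFree
  simp only [sector_eq, factor_eq]
  rfl

/-- the main step -/
theorem law {a b : 𝓞 K} {F : ℂ → ℂ} (hF : IsRealContinuation a b F) {ρ₀ : ℝ} (hρ₀ : 1 ≤ ρ₀) (t : ℝ) :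
    Lower a b ρ₀ t ↔ (∃ m : ℕ, analyticOrderAt F 1 = m ∧ (m : ℝ) ≤ t) ∧ ZeroFree a b ρ₀ := by
  have h1 := CP.order_main (al_pure a b) (c := 1) (σ := 3 / 2) (by norm_num) (by norm_num) hρ₀
    ((real_iff a b F).2 hF) t
  have k1 : CP.LowerR 1 (al a b) ρ₀ t ↔ Lower a b ρ₀ t := by
    unfold CP.LowerR Lower
    simp only [mean_eq]
  rw [k1, zero_iff, Complex.ofReal_one] at h1
  exact h1

/-- **Theorem.** Let `K` be a number field, `a, b ∈ 𝓞_K`, `E : y² = x³ + a x + b`, `F` a continuation of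
`L(E, s)` along the real axis which is analytic at all real `s ≥ 1`, and `ρ₀ ≥ 1`.

(1) For all real `t`: `S_ρ(Y) + t log log Y` is bounded below for all `ρ' > ρ > ρ₀` if and only if
`ord_{s=1} L(E, s) ≤ t` and `L(E, s)` has a holomorphic continuation without zeros to the union of
`Re s > 3/2` and the sector `|arg (s - 1)| < π/(2ρ₀)`.

(2) `ord_{s=1} L(E, s) = rank E(K)` and `L(E, s)` has such a continuation if and only if the lower bound
holds exactly for the real `t ≥ rank E(K)`.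

For `ρ₀ = 1` the sector is the half plane `Re s > 1`. -/
theorem result (a b : 𝓞 K) (F : ℂ → ℂ) (hF : IsRealContinuation a b F) (ρ₀ : ℝ) (hρ₀ : 1 ≤ ρ₀) :
    (∀ t : ℝ, Lower a b ρ₀ t ↔
      (∃ m : ℕ, analyticOrderAt F 1 = m ∧ (m : ℝ) ≤ t) ∧ ZeroFree a b ρ₀) ∧
    ((analyticOrderAt F 1 = rank a b ∧ ZeroFree a b ρ₀) ↔
      ∀ t : ℝ, (Lower a b ρ₀ t ↔ (rank a b : ℝ) ≤ t)) ∧
    Sector 1 = {s : ℂ | 1 < s.re} := by
  refine ⟨fun t => law hF hρ₀ t, ⟨?_, ?_⟩, ?_⟩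
  · rintro ⟨h1, h2⟩ t
    rw [law hF hρ₀ t]
    constructor
    · rintro ⟨⟨m, h3, h4⟩, -⟩
      rw [h1] at h3
      have h5 : rank a b = m := by exact_mod_cast h3
      rwa [h5]
    · intro h3
      exact ⟨⟨rank a b, h1, h3⟩, h2⟩
  · intro h
    obtain ⟨⟨m, h3, h4⟩, h5⟩ := (law hF hρ₀ _).1 ((h (rank a b)).2 le_rfl)
    have h6 : (rank a b : ℝ) ≤ m := (h m).1 ((law hF hρ₀ _).2 ⟨⟨m, h3, le_rfl⟩, h5⟩)
    have h7 : m = rank a b := by
      have h8 : m ≤ rank a b := by exact_mod_cast h4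
      have h9 : rank a b ≤ m := by exact_mod_cast h6
      omega
    rw [h7] at h3
    exact ⟨h3, h5⟩
  · ext s
    rw [← sector_eq, CP.sector_shift, sect_one]
    simp only [Set.mem_ofPred_eq, Complex.sub_re, Complex.ofReal_re, sub_pos]

end Pool.Agent.Results.MP_cd906c_nt.OneSidedRankBound
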