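import Pool.Agent.TH942.ES.NF

/-!
# A scale of numerical forms of the rank conjecture for elliptic curves over number fields

Let `E : y² = x³ + a x + b` be an elliptic curve over a number field `K`, `a, b ∈ 𝓞_K`, such that `L(E/K, s)`
has a continuation `G` which is holomorphic for `Re s > 1` and at `s = 1` (for example, an entire
continuation). The original form of the conjecture of Birch and Swinnerton-Dyer, the asymptotic formula
`∏_{N v ≤ X} #E(k_v)/N v ∼ C (log X)^r` for the rank `r` of `E(K)`, contains the Riemann hypothesis for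
`L(E/K, s)`. Here the sharp cut-off is replaced by the weights
`w_ρ(u) = (1/2πi) ∫ exp(z - u z^{1/ρ}) dz/z`, `ρ > 1`, which decay so fast that the means

`S_ρ(Y) = ∑_v w_ρ(log N v / log Y) log ((N_v + 1) / N v)`

over the primes `v` not dividing `6 (4 a³ + 27 b²)` (`N_v` affine points modulo `v`) are, up to a bounded
error, finite sums over `N v ≤ exp ((log Y)^{ρ'})`, for any `ρ' > ρ`. It is shown that for every `ρ > 1` and
every `r`:

* the order of `L(E/K, s)` at `s = 1` is `r` and there is no zero in the sector `|arg (s - 1)| < π/(2ρ)` if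
  and only if `S_ρ(Y) = r log log Y + O(1)`; in particular the rank conjecture for `E/K` together with the
  absence of zeros in this sector is equivalent to `S_ρ(Y) = rank E(K) log log Y + O(1)`;
* in general the exponential growth of `S_ρ(Y)` in the scale `exp(θ (log Y)^ρ)` is given exactly by the
  maximum `θ` of `Re (s - 1)^ρ` over the zeros `s` in the sector.

The starting results have such laws for elliptic curves over `ℚ` and, over number fields, for rotated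
weights which do not see the sectors. The Tauberian theorem is proved in the library
(`Pool.Agent.TH942.ES`, `Pool.Agent.TH942.SL`).
-/

set_option autoImplicit false

namespace Pool.Agent.Results.MP_cd906c_nt.SectorialRankLaw

open Filter Topology Set NumberField IsDedekindDomain

variable {K : Type} [Field K] [NumberField K]

/-- The norm of `v`. -/
noncomputable def nrm (v : HeightOneSpectrum (𝓞 K)) : ℕ := Ideal.absNorm v.asIdeal

/-- `v` does not divide `6 (4 a³ + 27 b²)`. -/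
def Good (a b : 𝓞 K) (v : HeightOneSpectrum (𝓞 K)) : Prop :=
  6 * (4 * a ^ 3 + 27 * b ^ 2) ∉ v.asIdeal

/-- The number of affine points of `y² = x³ + a x + b` modulo `v`. -/
noncomputable def pts (a b : 𝓞 K) (v : HeightOneSpectrum (𝓞 K)) : ℕ :=
  Nat.card {P : (𝓞 K ⧸ v.asIdeal) × (𝓞 K ⧸ v.asIdeal) //
    P.2 ^ 2 = P.1 ^ 3 + Ideal.Quotient.mk v.asIdeal a * P.1 + Ideal.Quotient.mk v.asIdeal b}

/-- The Euler factor `(1 - a_v (N v)^{-s} + (N v)^{1 - 2s})⁻¹`, `a_v = N v - N_v`. -/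
noncomputable def factor (a b : 𝓞 K) (v : HeightOneSpectrum (𝓞 K)) (s : ℂ) : ℂ :=
  (1 - ((nrm v : ℂ) - pts a b v) * (nrm v : ℂ) ^ (-s) + (nrm v : ℂ) ^ (1 - 2 * s))⁻¹

/-- `G` is a continuation of `L(E/K, s)`, holomorphic for `Re s > 1` and at `s = 1`. The Euler factors at
the finitely many primes which are not good have neither zeros nor poles for `Re s ≥ 1`. -/
structure IsContinuation (a b : 𝓞 K) (G : ℂ → ℂ) : Prop where
  diff : ∀ s : ℂ, 1 < s.re → DifferentiableAt ℂ G s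
  one : AnalyticAt ℂ G 1
  prod : ∀ s : ℂ, 3 / 2 < s.re → HasProd (fun v : {v // Good a b v} => factor a b v.1 s) (G s)

/-- The open sector `|arg (s - 1)| < π/(2ρ)` with vertex `1`. -/
def Sector (ρ : ℝ) : Set ℂ := {s | s ≠ 1 ∧ |(s - 1).arg| < Real.pi / (2 * ρ)}

/-- The weight `w_ρ(u) = (1/2πi) ∫_{Re z = 1} exp(z - u z^{1/ρ}) dz/z`. -/
noncomputable def weight (ρ u : ℝ) : ℝ :=
  (2 * Real.pi)⁻¹ * ∫ t : ℝ, (Complex.exp ((1 + t * Complex.I) -
    u * (1 + t * Complex.I) ^ ((ρ⁻¹ : ℝ) : ℂ)) / (1 + t * Complex.I)).re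

/-- The mean `∑ w_ρ(log N v / log Y) log ((N_v + 1) / N v)` over the good primes with
`N v ≤ exp ((log Y)^{ρ'})`. -/
noncomputable def mean (a b : 𝓞 K) (ρ ρ' Y : ℝ) : ℝ :=
  ∑ᶠ (v : {v // Good a b v}) (_ : (nrm v.1 : ℝ) ≤ Real.exp (Real.log Y ^ ρ')),
    weight ρ (Real.log (nrm v.1) / Real.log Y) * Real.log (((pts a b v.1 : ℝ) + 1) / nrm v.1)

/-- `S_ρ(Y) = r log log Y + O(1)`. -/
def Law (a b : 𝓞 K) (ρ ρ' : ℝ) (r : ℕ) : Prop :=
  ∃ C : ℝ, ∀ᶠ Y : ℝ in atTop, |mean a b ρ ρ' Y - r * Real.log (Real.log Y)| ≤ C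

/-- `S_ρ(Y) = O(exp((θ + ε) (log Y)^ρ))` for every `ε > 0`. -/
def Growth (a b : 𝓞 K) (ρ ρ' θ : ℝ) : Prop :=
  ∀ ε : ℝ, 0 < ε → ∃ C : ℝ, ∀ᶠ Y : ℝ in atTop,
    |mean a b ρ ρ' Y| ≤ C * Real.exp ((θ + ε) * Real.log Y ^ ρ)

open Classical in
/-- The rank of the group `E(K)`. -/
noncomputable def rank (a b : 𝓞 K) : ℕ :=
  Module.finrank ℤ (⟨0, 0, 0, (a : K), (b : K)⟩ : WeierstrassCurve K).toAffine.Point

open Pool.Agent.TH942.ES in
theorem mean_eq (a b : 𝓞 K) (ρ ρ' Y : ℝ) : mean a b ρ ρ' Y =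
    SrE (fun v : {v // GoodV a b v} => Pool.Agent.H921R2.TatePole.nm v.1) (alV a b) ρ ρ' Y := by
  unfold mean SrE
  refine finsum_congr fun v => finsum_congr fun _ => ?_
  rw [curve_cv]
  rfl

open Pool.Agent.TH942.ES in
theorem prod_eq (a b : 𝓞 K) (s : ℂ) :
    (fun v : {v // Good a b v} => factor a b v.1 (1 + s)) = fun v : {v // GoodV a b v} =>
      ∏ i, (1 - zv (fun v : {v // GoodV a b v} => Pool.Agent.H921R2.TatePole.nm v.1) (alV a b) v i *
        xv (fun v : {v // GoodV a b v} => Pool.Agent.H921R2.TatePole.nm v.1) v s)⁻¹ := by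
  funext v
  rw [curve_factor]
  rfl

open Pool.Agent.TH942.ES in
theorem con {a b : 𝓞 K} {G : ℂ → ℂ} (hG : IsContinuation a b G) :
    Con (fun v : {v // GoodV a b v} => Pool.Agent.H921R2.TatePole.nm v.1) (alV a b)
      (fun s => G (1 + s)) where
  Ψd := fun s hs => by
    have h1 := hG.diff (1 + s) (by
      rw [Complex.add_re, Complex.one_re]
      linarith)
    exact h1.comp s (by fun_prop)
  prod := fun s hs => by
    rw [← prod_eq]
    exact hG.prod (1 + s) (by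
      rw [Complex.add_re, Complex.one_re]
      linarith)

theorem ordZero {G : ℂ → ℂ} {r : ℕ} (h0 : AnalyticAt ℂ G 1) (h : analyticOrderAt G 1 = r) :
    Pool.Agent.W263.BSD.OrdZero (fun s => G (1 + s)) r := by
  obtain ⟨g, hg, hg0, hge⟩ := (h0.analyticOrderAt_eq_natCast).1 h
  have hT : Tendsto (fun z : ℂ => 1 + z) (𝓝 0) (𝓝 1) := by
    have h1 : ContinuousAt (fun z : ℂ => 1 + z) 0 := by fun_prop
    have h2 := h1.tendsto
    rwa [add_zero] at h2
  refine ⟨fun z => g (1 + z), ?_, by simpa using hg0, ?_⟩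
  · have h2 : AnalyticAt ℂ (fun z : ℂ => 1 + z) 0 := by fun_prop
    have h3 : AnalyticAt ℂ g ((fun z : ℂ => 1 + z) 0) := by simpa using hg
    exact h3.comp h2
  · filter_upwards [hT.eventually hge] with z hz
    rw [hz, add_sub_cancel_left, smul_eq_mul]

open Pool.Agent.TH942.ES in
theorem order_finite {a b : 𝓞 K} {G : ℂ → ℂ} (hG : IsContinuation a b G) :
    ∃ r : ℕ, analyticOrderAt G 1 = r := by
  by_contra h
  have h1 : analyticOrderAt G 1 = ⊤ := by
    by_contra h2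
    exact h ⟨(analyticOrderAt G 1).toNat, (ENat.natCast_toNat h2).symm⟩
  have h2 : ∀ᶠ s in 𝓝 (1 : ℂ), G s = 0 := analyticOrderAt_eq_top.1 h1
  have ho : IsOpen {z : ℂ | 1 < z.re} := isOpen_lt continuous_const Complex.continuous_re
  have han : AnalyticOnNhd ℂ G {z : ℂ | 1 < z.re} := DifferentiableOn.analyticOnNhd
    (fun z hz => (hG.diff z hz).differentiableWithinAt) ho
  -- a point of the half plane near which `G` vanishes
  obtain ⟨ε, hε, h3⟩ := Metric.eventually_nhds_iff.1 h2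
  have h4 : ((1 + ε / 2 : ℝ) : ℂ) ∈ {z : ℂ | 1 < z.re} := by
    rw [Set.mem_ofPred_eq, Complex.ofReal_re]
    linarith
  have h5 : ∀ᶠ z in 𝓝 ((1 + ε / 2 : ℝ) : ℂ), G z = 0 := by
    filter_upwards [Metric.ball_mem_nhds ((1 + ε / 2 : ℝ) : ℂ) (half_pos hε)] with z hz
    refine h3 ?_
    rw [Metric.mem_ball] at hz
    have e1 : dist ((1 + ε / 2 : ℝ) : ℂ) 1 = ε / 2 := by
      rw [Complex.dist_eq, ← Complex.ofReal_one, ← Complex.ofReal_sub, Complex.norm_real,
        add_sub_cancel_left, Real.norm_eq_abs, abs_of_pos (by positivity)]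
    have e2 := dist_triangle z ((1 + ε / 2 : ℝ) : ℂ) 1
    linarith
  have h6 : ((2 : ℝ) : ℂ) ∈ {z : ℂ | 1 < z.re} := by
    rw [Set.mem_ofPred_eq, Complex.ofReal_re]
    norm_num
  have h7 := han.eqOn_zero_of_preconnected_of_eventuallyEq_zero
    (convex_halfSpace_re_gt (1 : ℝ)).isPreconnected h4 h5 h6
  have h8 : HasProd (fun v : {v // Good a b v} => factor a b v.1 ((2 : ℝ) : ℂ)) (G ((2 : ℝ) : ℂ)) :=
    hG.prod _ (by rw [Complex.ofReal_re]; norm_num)
  have e1 : ((2 : ℝ) : ℂ) = 1 + ((1 : ℝ) : ℂ) := by push_cast; norm_num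
  rw [e1, prod_eq] at h8
  have h9 : 1 / 2 < (((1 : ℝ) : ℂ)).re := by
    rw [Complex.ofReal_re]
    norm_num
  have h10 := (curve_sys a b).LE_diff h9
  apply h10.2
  have h11 := h8.tprod_eq
  change LE _ _ _ = _ at h11
  exact h11.trans (by rw [← e1, h7]; rfl)

theorem loglog_tendsto : Tendsto (fun X : ℝ => Real.log (Real.log X)) atTop atTop :=
  Real.tendsto_log_atTop.comp Real.tendsto_log_atTop

theorem sector_shift (ρ : ℝ) (s : ℂ) : s ∈ Sector ρ ↔ s - 1 ≠ 0 ∧ |(s - 1).arg| < Real.pi / (2 * ρ) := by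
  unfold Sector
  simp only [Set.mem_ofPred_eq, sub_ne_zero]

/-- two laws have the same exponent -/
theorem law_unique {a b : 𝓞 K} {ρ ρ' : ℝ} {r m : ℕ} (h1 : Law a b ρ ρ' r) (h2 : Law a b ρ ρ' m) :
    r = m := by
  obtain ⟨C, hC⟩ := h1
  obtain ⟨D, hD⟩ := h2
  by_contra hne
  have h3 : (1 : ℝ) ≤ |(r : ℝ) - m| := by
    have : (r : ℤ) - m ≠ 0 := by omega
    have h4 := Int.one_le_abs this
    have h5 : ((1 : ℤ) : ℝ) ≤ ((|(r : ℤ) - m| : ℤ) : ℝ) := by exact_mod_cast h4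
    push_cast at h5
    exact h5
  obtain ⟨Y, hY1, hY2, hY3, hY4⟩ := (hC.and (hD.and
    ((loglog_tendsto.eventually_gt_atTop (C + D)).and
      (loglog_tendsto.eventually_gt_atTop 0)))).exists
  have e1 : ((r : ℝ) - m) * Real.log (Real.log Y) = (mean a b ρ ρ' Y - m * Real.log (Real.log Y)) -
      (mean a b ρ ρ' Y - r * Real.log (Real.log Y)) := by ring
  have e2 : |((r : ℝ) - m) * Real.log (Real.log Y)| ≤ D + C := by
    rw [e1]
    exact (abs_sub _ _).trans (add_le_add hY2 hY1)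
  rw [abs_mul, abs_of_pos hY4] at e2
  nlinarith

/-- The main step. -/
theorem law {a b : 𝓞 K} {G : ℂ → ℂ} (hG : IsContinuation a b G) {ρ ρ' : ℝ} (hρ : 1 < ρ)
    (hρ' : ρ < ρ') (r : ℕ) :
    (analyticOrderAt G 1 = r ∧ ∀ s ∈ Sector ρ, G s ≠ 0) ↔ Law a b ρ ρ' r := by
  have up : ∀ m : ℕ, analyticOrderAt G 1 = m → (∀ s ∈ Sector ρ, G s ≠ 0) → Law a b ρ ρ' m := by
    intro m hm hz
    obtain ⟨C, -, hC⟩ := (Pool.Agent.TH942.ES.curve_sys a b).Sr_up (con hG) hρ hρ'
      (ordZero hG.one hm) (fun s h3 h4 => hz (1 + s) (by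
        rw [sector_shift, add_sub_cancel_left]
        exact ⟨h3, h4⟩))
    exact ⟨C, hC.mono fun Y hY => by rwa [mean_eq]⟩
  constructor
  · rintro ⟨h1, h2⟩
    exact up r h1 h2
  · intro h
    obtain ⟨C, hC⟩ := h
    have h3 : ∀ᶠ Y : ℝ in atTop, |mean a b ρ ρ' Y| ≤ ((r : ℝ) + 1) * Real.log (Real.log Y) := by
      filter_upwards [hC, loglog_tendsto.eventually_ge_atTop C,
        loglog_tendsto.eventually_ge_atTop 0] with Y h4 h5 h6
      have h7 := abs_sub_abs_le_abs_sub (mean a b ρ ρ' Y) (r * Real.log (Real.log Y))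
      rw [abs_of_nonneg (mul_nonneg (Nat.cast_nonneg r) h6)] at h7
      nlinarith
    have hz : ∀ s ∈ Sector ρ, G s ≠ 0 := by
      intro s hs
      rw [sector_shift] at hs
      have h4 := (Pool.Agent.TH942.ES.curve_sys a b).sector_of_small (con hG) hρ hρ'
        (K := (r : ℝ) + 1) (h3.mono fun Y hY => by rwa [← mean_eq]) (s - 1) hs.1 hs.2
      simpa using h4
    obtain ⟨m, hm⟩ := order_finite hG
    have h5 := law_unique ⟨C, hC⟩ (up m hm hz)
    rw [h5]
    exact ⟨hm, hz⟩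

theorem sector_sub {ρ : ℝ} (hρ : 1 < ρ) {s : ℂ} (hs : s ∈ Sector ρ) : 1 < s.re := by
  have h1 := (Complex.abs_arg_lt_pi_div_two_iff (z := s - 1)).1 (hs.2.trans_le (by
    have := Real.pi_pos
    exact div_le_div_of_nonneg_left this.le (by norm_num) (by linarith)))
  rcases h1 with h1 | h1
  · rw [Complex.sub_re, Complex.one_re] at h1
    linarith
  · exact absurd (sub_eq_zero.1 h1) hs.1

theorem exists_sector {s : ℂ} (hs : 1 < s.re) : ∃ ρ : ℝ, 1 < ρ ∧ s ∈ Sector ρ := by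
  obtain ⟨n, hn⟩ := Pool.Agent.TH942.ES.Sys.exists_sect (s := s - 1) (by
    rw [Complex.sub_re, Complex.one_re]
    linarith)
  refine ⟨1 + 1 / ((n : ℝ) + 1), ?_, ?_⟩
  · have : (0 : ℝ) < 1 / ((n : ℝ) + 1) := by positivity
    linarith
  · rw [sector_shift]
    exact hn

/-- **Theorem.** Let `K` be a number field, `a, b ∈ 𝓞_K`, `E : y² = x³ + a x + b`, and let `G` be a continuation
of `L(E/K, s)` which is holomorphic for `Re s > 1` and at `s = 1`.

(1) For all `ρ' > ρ > 1` and natural numbers `r`: `ord_{s=1} G = r` and `G` has no zero in the sector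
`|arg (s - 1)| < π/(2ρ)` if and only if `S_ρ(Y) = r log log Y + O(1)`.

(2) The rank conjecture for `E/K` and the absence of zeros in this sector are together equivalent to
`S_ρ(Y) = rank E(K) log log Y + O(1)`; the rank conjecture for `E/K` and the absence of zeros with
`Re s > 1` are together equivalent to this formula for all `ρ' > ρ > 1`.

(3) For all `ρ' > ρ > 1` and `θ ≥ 0`: all zeros `s` of `G` in the sector satisfy `Re (s - 1)^ρ ≤ θ` if and
only if `S_ρ(Y) = O(exp((θ + ε)(log Y)^ρ))` for every `ε > 0`. -/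
theorem result (a b : 𝓞 K) (G : ℂ → ℂ) (hG : IsContinuation a b G) :
    (∀ ρ ρ' : ℝ, 1 < ρ → ρ < ρ' → ∀ r : ℕ,
      ((analyticOrderAt G 1 = r ∧ ∀ s ∈ Sector ρ, G s ≠ 0) ↔ Law a b ρ ρ' r)) ∧
    (∀ ρ ρ' : ℝ, 1 < ρ → ρ < ρ' →
      ((analyticOrderAt G 1 = rank a b ∧ ∀ s ∈ Sector ρ, G s ≠ 0) ↔ Law a b ρ ρ' (rank a b))) ∧
    ((analyticOrderAt G 1 = rank a b ∧ ∀ s : ℂ, 1 < s.re → G s ≠ 0) ↔
      ∀ ρ ρ' : ℝ, 1 < ρ → ρ < ρ' → Law a b ρ ρ' (rank a b)) ∧
    (∀ ρ ρ' θ : ℝ, 1 < ρ → ρ < ρ' → 0 ≤ θ →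
      ((∀ s ∈ Sector ρ, G s = 0 → ((s - 1) ^ (ρ : ℂ)).re ≤ θ) ↔ Growth a b ρ ρ' θ)) := by
  refine ⟨fun ρ ρ' hρ hρ' r => law hG hρ hρ' r, fun ρ ρ' hρ hρ' => law hG hρ hρ' _, ?_,
    fun ρ ρ' θ hρ hρ' hθ => ?_⟩
  · constructor
    · rintro ⟨h1, h2⟩ ρ ρ' hρ hρ'
      exact (law hG hρ hρ' _).1 ⟨h1, fun s hs => h2 s (sector_sub hρ hs)⟩
    · intro h
      refine ⟨((law hG (ρ := 2) (ρ' := 3) (by norm_num) (by norm_num) _).2
        (h 2 3 (by norm_num) (by norm_num))).1, fun s hs => ?_⟩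
      obtain ⟨ρ, h1, h2⟩ := exists_sector hs
      exact ((law hG h1 (lt_add_one ρ) _).2 (h ρ (ρ + 1) h1 (lt_add_one ρ))).2 s h2
  · have h1 := (Pool.Agent.TH942.ES.curve_sys a b).Sr_level (con hG) hρ hρ' hθ
    have h2 : Growth a b ρ ρ' θ ↔ ∀ ε : ℝ, 0 < ε → ∃ C : ℝ, ∀ᶠ Y : ℝ in atTop,
        |Pool.Agent.TH942.ES.SrE (fun v : {v // Pool.Agent.TH942.ES.GoodV a b v} =>
          Pool.Agent.H921R2.TatePole.nm v.1) (Pool.Agent.TH942.ES.alV a b) ρ ρ' Y| ≤
          C * Real.exp ((θ + ε) * Real.log Y ^ ρ) := by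
      unfold Growth
      simp only [mean_eq]
    rw [h2, ← h1]
    constructor
    · intro h s hs1 hs2 hs3 h0
      have h3 := h (1 + s) (by
        rw [sector_shift, add_sub_cancel_left]
        exact ⟨hs1, hs2⟩) h0
      rw [add_sub_cancel_left] at h3
      linarith
    · intro h s hs h0
      rw [sector_shift] at hs
      by_contra h3
      push Not at h3
      have h4 := h (s - 1) hs.1 hs.2 h3
      rw [add_sub_cancel] at h4
      exact h4 h0

end Pool.Agent.Results.MP_cd906c_nt.SectorialRankLaw
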