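import Pool.Agent.Results.MP_cd906c_nt.CompositaExactProportion
import Pool.Agent.V1110.SpB

/-!
# The rank conjecture for `X_0(49)` over composita along sparse sequences of discriminants

`E = X_0(49)`; `K_1, …, K_k` are number fields of degree `2 ^ m i`, `m i ≥ 1`, in the `r i`-th cyclotomic
fields, `r i ≡ 1 mod 4` prime, inert in `ℚ(√-7)`. The hand-in `CompositaExactProportion` of this problem
defines a class of squarefree numbers and good finite subsets `S` of it, proves the rank conjecture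
(order and rank zero) for `E` over all the fields `K_i (√S)`, `S` good, and shows that for every good `S`
the numbers `D` with `S ∪ {D}` good have the proportion exactly `c ^ #⟨S⟩` in the class.

Here the numbers `D` are taken from a sparse sequence `⌊α n ^ p⌋`, where `p > 1` is any real number
(about `X^{1/p}` integers up to `X`). There is one set `A₀` of real numbers of Hausdorff dimension
smaller than one, such that for all real `α > 0` not in `A₀`, for ALL the systems `(r, m)` of fields and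
ALL good sets `S`, the proportion along the sequence is the same, `c ^ #⟨S⟩`, so that infinite chains
of good sets can be formed with all new elements from the sequence.
-/

set_option autoImplicit false

open Filter Topology

namespace Pool.Agent.Results.MP_cd906c_nt.SparseSequences

open Pool.Agent.Results.MP_cd906c_nt.CompositaExactProportion

/-- the number of the `1 ≤ n ≤ N` such that `⌊α n ^ p⌋` has the property `Q` -/
noncomputable def along (α p : ℝ) (Q : ℕ → Prop) (N : ℕ) : ℕ :=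
  Nat.card {n : ℕ // (1 ≤ n ∧ n ≤ N) ∧ Q ⌊α * (n : ℝ) ^ p⌋₊}

/-- `D` is in the class and `S ∪ {D}` is good -/
def GoodExt {k : ℕ} (r m : Fin k → ℕ) (S : Finset ℕ) (D : ℕ) : Prop :=
  Adm r m D ∧ Good (insert D S)

lemma count_card {k : ℕ} (r m : Fin k → ℕ) (Q : ℕ → Prop) (X : ℕ) :
    count r m Q X = Nat.card {D : ℕ // (1 ≤ D ∧ D ≤ X) ∧ Adm r m D ∧ Q D} := by
  classical
  unfold count
  refine (Nat.subtype_card _ fun D => ?_).symm
  rw [Finset.mem_filter, Finset.mem_Icc]

/-- large terms of the sequence -/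
lemma exists_term {α p c : ℝ} {P Q : ℕ → Prop} (hc : 0 < c) (A : ℝ)
    (hp : Tendsto (fun N : ℕ => (along α p P N : ℝ) / along α p Q N) atTop (𝓝 c))
    (hQ : ∃ b : ℝ, 0 < b ∧ ∃ N₀ : ℕ, ∀ N : ℕ, N₀ ≤ N →
      b * N * (Real.log N) ^ (-A) ≤ (along α p Q N : ℝ)) (B : ℕ) :
    ∃ n : ℕ, B < n ∧ P ⌊α * (n : ℝ) ^ p⌋₊ := by
  classical
  by_contra hcon
  push Not at hcon
  obtain ⟨b, hb, N₀, hN₀⟩ := hQ
  have h2 : ∀ N : ℕ, (along α p P N : ℝ) ≤ (B : ℝ) := by
    intro N
    have h3 : along α p P N = ((Finset.Icc 1 N).filter fun n : ℕ => P ⌊α * (n : ℝ) ^ p⌋₊).card := by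
      unfold along
      refine Nat.subtype_card _ fun n => ?_
      rw [Finset.mem_filter, Finset.mem_Icc]
    have h4 : ((Finset.Icc 1 N).filter fun n : ℕ => P ⌊α * (n : ℝ) ^ p⌋₊) ⊆ Finset.Icc 1 B := by
      intro n hn
      rw [Finset.mem_filter] at hn
      rw [Finset.mem_Icc]
      refine ⟨(Finset.mem_Icc.1 hn.1).1, ?_⟩
      by_contra h5
      exact hcon n (by omega) hn.2
    have h5 := Finset.card_le_card h4
    rw [Nat.card_Icc, Nat.add_sub_cancel, ← h3] at h5
    exact_mod_cast h5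
  have htop : Tendsto (fun N : ℕ => (along α p Q N : ℝ)) atTop atTop := by
    obtain ⟨N₁, hN₁⟩ := Pool.Agent.V1110.SpA.beats b A (1 / 2) 1 hb (by norm_num)
    have h1 : Tendsto (fun N : ℕ => (N : ℝ) ^ (1 / 2 : ℝ)) atTop atTop :=
      (tendsto_rpow_atTop (by norm_num)).comp tendsto_natCast_atTop_atTop
    refine tendsto_atTop_mono' _ ?_ h1
    filter_upwards [eventually_ge_atTop (max N₀ N₁)] with N hN
    have h3 := hN₀ N ((le_max_left _ _).trans hN)
    have h4 := hN₁ N ((le_max_right _ _).trans hN)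
    rw [Real.rpow_neg (Real.log_natCast_nonneg N), ← div_eq_mul_inv] at h3
    have e : (1 : ℝ) - 1 / 2 = 1 / 2 := by norm_num
    rw [e, one_mul] at h4
    exact h4.trans h3
  have h3 : Tendsto (fun N : ℕ => (B : ℝ) / (along α p Q N : ℝ)) atTop (𝓝 0) :=
    htop.const_div_atTop _
  have h4 : c ≤ 0 := by
    refine le_of_tendsto_of_tendsto hp h3 (Eventually.of_forall fun N => ?_)
    exact div_le_div_of_nonneg_right (h2 N) (Nat.cast_nonneg _)
  linarith

/-- **Main theorem.** Let `p > 1` be a real number. There is a set `A₀` of real numbers of Hausdorff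
dimension smaller than one, such that for all real `α > 0` not in `A₀`, all `k` and all primes
`r_1, …, r_k ≡ 1 mod 4` inert in `ℚ(√-7)` and all `m_1, …, m_k ≥ 1`:
(1) For at least `b N (log N) ^ (κ - 1)` of the `n ≤ N` (`b > 0`, `κ = 1 / (2 ∏ 2 ^ m i)`) the number
`⌊α n ^ p⌋` is in the class of `(r, m)`.
(2) If `S` is a good set of numbers of the class, then the proportion of the `n` such that
`S ∪ {⌊α n ^ p⌋}` is good, among the `n` such that `⌊α n ^ p⌋` is in the class, is exactly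
`c ^ #⟨S⟩`, `c = ∏_{i ≥ 0} (1 - 2^{-(2 i + 1)}) = 0.419…`.
(3) Let `K_i` be a subfield of degree `2 ^ m i` of the `r i`-th cyclotomic field for all `i`. If `S ∪ {D}`
is good and `D` in the class, then for all `i` the rank conjecture holds for `E = X_0(49)` over
`K_i (√S, √D)`, with rank and order zero. Every good set `S` of numbers of the class is the first one of
a sequence of sets `T_0 = S, T_1, …` with `T_{j+1} = T_j ∪ {⌊α n ^ p⌋}` for some `n = n_j`,
`n_0 < n_1 < …`, such that for all `i`, `j` the field `K_i (√T_j)` is strictly contained in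
`K_i (√T_{j+1})` and the rank conjecture holds for `E` over `K_i (√T_j)`, with rank and order zero. -/
theorem result (p : ℝ) (hp : 1 < p) :
    ∃ A₀ : Set ℝ, dimH A₀ < 1 ∧ ∀ α : ℝ, 0 < α → α ∉ A₀ →
      ∀ (k : ℕ) (r m : Fin k → ℕ),
      (∀ i, (r i).Prime ∧ r i % 4 = 1 ∧ ¬ IsSquare (-7 : ZMod (r i))) → (∀ i, 1 ≤ m i) →
      (∃ b : ℝ, 0 < b ∧ ∃ N₀ : ℕ, ∀ N : ℕ, N₀ ≤ N →
        b * N * (Real.log N) ^ (-(1 - 1 / (2 * ∏ i, 2 ^ m i)) : ℝ) ≤
          (along α p (Adm r m) N : ℝ)) ∧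
      (∀ S : Finset ℕ, (∀ d ∈ S, Adm r m d) → Good S →
        Tendsto (fun N : ℕ => (along α p (GoodExt r m S) N : ℝ) / along α p (Adm r m) N) atTop
          (𝓝 (cc ^ (gen S).ncard))) ∧
      ∀ (K : Fin k → IntermediateField ℚ ℂ) [∀ i, NumberField (K i)],
        (∀ i, K i ≤ cyclotomic (r i) ∧ Module.finrank ℚ (K i) = 2 ^ m i) →
        ∀ S : Finset ℕ, (∀ d ∈ S, Adm r m d) → Good S →
        (∀ D : ℕ, GoodExt r m S D → ∀ (i : Fin k) (F : IntermediateField ℚ ℂ) [NumberField F],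
          F = multiquadratic (insert D S) ⊔ K i → RankConjZero F) ∧
        ∃ (T : ℕ → Finset ℕ) (n : ℕ → ℕ), T 0 = S ∧ StrictMono n ∧
          ∀ j, T (j + 1) = insert ⌊α * (n j : ℝ) ^ p⌋₊ (T j) ∧
            ∀ i, multiquadratic (T j) ⊔ K i < multiquadratic (T (j + 1)) ⊔ K i ∧
              ∀ (F : IntermediateField ℚ ℂ) [NumberField F],
                F = multiquadratic (T j) ⊔ K i → RankConjZero F := by
  classical
  obtain ⟨A₀, hA₀, h⟩ := Pool.Agent.V1110.SpA.ratio_nat p hp
    (ι := Σ k : ℕ, (Fin k → ℕ) × (Fin k → ℕ) × Finset ℕ)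
    (fun v => GoodExt v.2.1 v.2.2.1 v.2.2.2) (fun v => Adm v.2.1 v.2.2.1)
  refine ⟨A₀, hA₀, fun α hα hαA k r m hr hm => ?_⟩
  set A : ℝ := 1 - 1 / (2 * ∏ i, 2 ^ m i) with hA
  have hprod1 : (1 : ℝ) ≤ ∏ i, (2 : ℝ) ^ m i := by
    have : (1 : ℝ) ≤ ∏ _i : Fin k, (1 : ℝ) := by simp
    exact this.trans (Finset.prod_le_prod (fun _ _ => by norm_num) fun i _ =>
      one_le_pow₀ (by norm_num))
  have hA0 : 0 ≤ A := by
    rw [hA, sub_nonneg, div_le_one (by linarith)]
    linarith
  have hcA : ∀ X : ℕ, count r m (fun _ => True) X =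
      Nat.card {D : ℕ // (1 ≤ D ∧ D ≤ X) ∧ Adm r m D} := by
    intro X
    rw [count_card]
    simp only [and_true]
  obtain ⟨b, X₀, hb, hX₀⟩ := size (m := m) hr
  have hQ : ∃ X0 : ℕ, ∀ X : ℕ, X0 ≤ X → b * X * (Real.log X) ^ (-A) ≤
      (Nat.card {D : ℕ // (1 ≤ D ∧ D ≤ X) ∧ Adm r m D} : ℝ) := by
    refine ⟨X₀, fun X hX => ?_⟩
    rw [← hcA]
    have h1 := hX₀ X hX
    have e : -A = (-1 + 1 / (2 * ∏ i, 2 ^ m i) : ℝ) := by
      rw [hA]
      ring
    rw [e]
    exact h1
  have key : ∀ S : Finset ℕ, (∀ d ∈ S, Adm r m d) → Good S →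
      Tendsto (fun N : ℕ => (along α p (GoodExt r m S) N : ℝ) / along α p (Adm r m) N) atTop
          (𝓝 (cc ^ (gen S).ncard)) ∧
      ∃ b : ℝ, 0 < b ∧ ∃ N0 : ℕ, ∀ N : ℕ, N0 ≤ N →
        b * N * (Real.log N) ^ (-A) ≤ (along α p (Adm r m) N : ℝ) := by
    intro S hS hG
    refine h α hα hαA ⟨k, r, m, S⟩ _ b A hb hA0 hQ ?_
    refine (prop hr hS hG).congr fun X => ?_
    rw [hcA, count_card]
    rfl
  have hempty : Good ∅ := by
    intro z hz
    have hz1 : z = 1 := by
      have : z ∈ Pool.Agent.V11291.K49.gen ∅ := hz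
      rw [Pool.Agent.V11291.K49.gen_empty] at this
      exact this
    subst hz1
    have : IsEmpty (split 1) := by
      constructor
      rintro ⟨p, hp⟩
      unfold split at hp
      rw [Nat.primeFactors_one, Finset.filter_empty] at hp
      exact absurd hp (Finset.notMem_empty p)
    rw [Matrix.det_isEmpty]
    exact one_ne_zero
  have hcc : 0 < cc := by
    have h1 : (0.4194 : ℝ) < cc := Pool.Agent.Y948.CQ.t_C2.2.2.2.1
    linarith
  refine ⟨(key ∅ (fun d hd => absurd hd (Finset.notMem_empty d)) hempty).2,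
    fun S hS hG => (key S hS hG).1, fun K _ hK S hS hG => ?_⟩
  have hres := (CompositaExactProportion.result r m hr hm K hK).1
  refine ⟨fun D hD i F _ hF => ?_, ?_⟩
  · refine hres (insert D S) (fun d hd => ?_) hD.2 i F hF
    rcases Finset.mem_insert.1 hd with rfl | h1
    · exact hD.1
    · exact hS d h1
  · -- the chain
    obtain ⟨M₁, hM₁⟩ := Pool.Agent.Y854.GM.last_ge hα hp
    have step : ∀ U : {U : Finset ℕ × ℕ // (∀ d ∈ U.1, Adm r m d) ∧ Good U.1}, ∃ n : ℕ,
        U.1.2 < n ∧ ∏ d ∈ U.1.1, d < ⌊α * (n : ℝ) ^ p⌋₊ ∧ Adm r m ⌊α * (n : ℝ) ^ p⌋₊ ∧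
          Good (insert ⌊α * (n : ℝ) ^ p⌋₊ U.1.1) := by
      intro U
      obtain ⟨k1, k2⟩ := key U.1.1 U.2.1 U.2.2
      obtain ⟨n, hn, h1, h2⟩ := exists_term (pow_pos hcc _) A k1 k2
        (max U.1.2 (max M₁ (∏ d ∈ U.1.1, d)))
      refine ⟨n, lt_of_le_of_lt (le_max_left _ _) hn, ?_, h1, h2⟩
      have h3 : ∏ d ∈ U.1.1, d < n :=
        lt_of_le_of_lt ((le_max_right _ _).trans (le_max_right _ _)) hn
      have h4 : M₁ ≤ n := ((le_max_left _ _).trans (le_max_right _ _)).trans hn.le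
      exact lt_of_lt_of_le h3 (hM₁ n h4)
    choose f hf using step
    let g : {U : Finset ℕ × ℕ // (∀ d ∈ U.1, Adm r m d) ∧ Good U.1} →
        {U : Finset ℕ × ℕ // (∀ d ∈ U.1, Adm r m d) ∧ Good U.1} := fun U =>
      ⟨(insert ⌊α * (f U : ℝ) ^ p⌋₊ U.1.1, f U), fun d hd => by
        rcases Finset.mem_insert.1 hd with rfl | h
        · exact (hf U).2.2.1
        · exact U.2.1 d h, (hf U).2.2.2⟩
    let T : ℕ → {U : Finset ℕ × ℕ // (∀ d ∈ U.1, Adm r m d) ∧ Good U.1} :=
      fun j => g^[j] ⟨(S, 0), hS, hG⟩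
    have hT : ∀ j, T (j + 1) = g (T j) := fun j => by
      show g^[j + 1] _ = _
      rw [Function.iterate_succ_apply']
    refine ⟨fun j => (T j).1.1, fun j => f (T j), rfl, strictMono_nat_of_lt_succ fun j => ?_,
      fun j => ⟨?_, fun i => ⟨?_, fun F _ hF => ?_⟩⟩⟩
    · have h1 := (hf (T (j + 1))).1
      have h2 : (T (j + 1)).1.2 = f (T j) := by rw [hT]
      rw [h2] at h1
      exact h1
    · show (T (j + 1)).1.1 = _
      rw [hT]
    · have hT1 : (T (j + 1)).1.1 = insert ⌊α * (f (T j) : ℝ) ^ p⌋₊ (T j).1.1 := by rw [hT]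
      beta_reduce
      rw [hT1]
      obtain ⟨-, h1, h2, h3⟩ := hf (T j)
      have hU := (T j).2.1
      set U := (T j).1.1 with hUdef
      set D := ⌊α * (f (T j) : ℝ) ^ p⌋₊ with hDdef
      -- a prime factor of `D` which does not divide the elements of `U`
      obtain ⟨p, hp, hpD, hpU⟩ : ∃ p : ℕ, p.Prime ∧ p ∣ D ∧ ∀ d ∈ U, ¬ p ∣ d := by
        by_contra hcon
        push Not at hcon
        have h4 : D ∣ ∏ d ∈ U, d := by
          rw [← Nat.prod_primeFactors_of_squarefree h2.1]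
          refine Finset.prod_primes_dvd _
            (fun p hp => (Nat.prime_of_mem_primeFactors hp).prime) fun p hp => ?_
          obtain ⟨d, hd, h5⟩ := hcon p (Nat.prime_of_mem_primeFactors hp)
            (Nat.dvd_of_mem_primeFactors hp)
          exact h5.trans (Finset.dvd_prod_of_mem _ hd)
        have h5 : ∏ d ∈ U, d ≠ 0 := Finset.prod_ne_zero_iff.2 fun d hd => (hU d hd).1.ne_zero
        have := Nat.le_of_dvd (Nat.pos_of_ne_zero h5) h4
        omega
      obtain ⟨z, hz⟩ : ∃ z : ℂ, z ^ 2 = (D : ℂ) := IsAlgClosed.exists_pow_nat_eq _ (by norm_num)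
      have hins : multiquadratic (insert D U) = multiquadratic U ⊔ IntermediateField.adjoin ℚ {z} :=
        Pool.Agent.V11291.K49.mqN_insert U D hz
      have hNF : NumberField (multiquadratic U ⊔ K i : IntermediateField ℚ ℂ) :=
        Pool.Agent.V11291.K49.nf_mqN U (K i)
      have hzn : z ∉ (multiquadratic U ⊔ K i : IntermediateField ℚ ℂ) :=
        Pool.Agent.V11291.K49.not_mem (hr i).1 (K i) (hK i).1 U (fun d hd => (hU d hd).c1 i)
          (multiquadratic U ⊔ K i) rfl h2.1 hp hpD ((h2.2 p hp hpD).2 i).1 hpU hz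
      refine lt_of_le_of_ne ?_ fun h => hzn ?_
      · rw [hins]
        exact sup_le_sup_right le_sup_left _
      · rw [h, hins]
        exact (le_sup_left : _ ≤ (multiquadratic U ⊔ IntermediateField.adjoin ℚ {z}) ⊔ K i)
          ((le_sup_right : _ ≤ multiquadratic U ⊔ IntermediateField.adjoin ℚ {z})
            (IntermediateField.mem_adjoin_simple_self ℚ z))
    · exact hres (T j).1.1 (T j).2.1 (T j).2.2 i F hF

end Pool.Agent.Results.MP_cd906c_nt.SparseSequences
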